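import Pool.Agent.H109R3.CF.Src

/-!
# Emptiness of global index grammars is undecidable (MP_c0e261)

A residue machine with an undecidable halting problem is simulated by a global index grammar with
one index symbol and one terminal symbol: the number is stored in the global stack, a step moves it
to the sentential form (as a block of nonterminals `C`) and back.
-/

set_option autoImplicit false

namespace Pool.Agent.Results.MP_c0e261_lc.EmptinessUndecidable

open Relation

/-! ## Global index grammars -/

/-- Symbols of sentential forms: `Sum.inl A` is the nonterminal `A`, `Sum.inr a` the terminal `a`. -/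
abbrev Sym : Type := ℕ ⊕ ℕ

/-- The stack parts of productions: `Sum.inl ()` is form (i.1), `inr (inl none)` is form (i.2) for the
bottom symbol, `inr (inl (some y))` is form (i.2) for the index `y`, `inr (inr (inl x))` is form (ii)
(push `x`) and `inr (inr (inr x))` is form (iii) (pop `x`). -/
abbrev Op : Type := Unit ⊕ Option ℕ ⊕ ℕ ⊕ ℕ

/-- A production: left-hand side, stack part, right-hand side. -/
abbrev Prd : Type := ℕ × Op × List Sym

/-- A global index grammar: start symbol and the finite list of productions. -/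
abbrev GIG : Type := ℕ × List Prd

/-- The right-hand side of a pushing production begins with a terminal. -/
def WF (G : GIG) : Prop :=
  ∀ p ∈ G.2, ∀ x : ℕ, p.2.1 = Sum.inr (Sum.inr (Sum.inl x)) → ∃ (a : ℕ) (α : List Sym),
    p.2.2 = Sum.inr a :: α

/-- Effect of the stack part on the stack (top on the left, the bottom symbol is not written). -/
def OpRel : Op → List ℕ → List ℕ → Prop
  | Sum.inl _, δ, δ' => δ' = δ
  | Sum.inr (Sum.inl none), δ, δ' => δ = [] ∧ δ' = []
  | Sum.inr (Sum.inl (some y)), δ, δ' => (∃ ε, δ = y :: ε) ∧ δ' = δ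
  | Sum.inr (Sum.inr (Sum.inl x)), δ, δ' => δ' = x :: δ
  | Sum.inr (Sum.inr (Sum.inr x)), δ, δ' => δ = x :: δ'

/-- Configurations: the stack and the sentential form. -/
abbrev Cfg : Type := List ℕ × List Sym

/-- A leftmost derivation step. -/
def Step (G : GIG) (c c' : Cfg) : Prop :=
  ∃ p ∈ G.2, ∃ (u : List ℕ) (γ : List Sym), c.2 = u.map Sum.inr ++ Sum.inl p.1 :: γ ∧
    c'.2 = u.map Sum.inr ++ (p.2.2 ++ γ) ∧ OpRel p.2.1 c.1 c'.1

/-- The generated language. -/
def lang (G : GIG) : Set (List ℕ) :=
  {w | ReflTransGen (Step G) ([], [Sum.inl G.1]) ([], w.map Sum.inr)}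

/-- The only index symbol of `G` is `0` and the only terminal symbol of `G` is `0`. -/
def Unary (G : GIG) : Prop :=
  ∀ p ∈ G.2, (∀ x : ℕ, Sum.inr x ∈ p.2.2 → x = 0) ∧
    ∀ x : ℕ, (p.2.1 = Sum.inr (Sum.inl (some x)) ∨ p.2.1 = Sum.inr (Sum.inr (Sum.inl x)) ∨
      p.2.1 = Sum.inr (Sum.inr (Sum.inr x))) → x = 0

/-! ## The reduction -/

open Pool.Agent.H109R3.CF (Tr HaltsT exists_tr)

/-- Nonterminals before coding. -/
abbrev NT : Type := Option ℕ ⊕ (Bool × Tr × ℕ) ⊕ Bool

/-- states -/
def nP (o : Option ℕ) : ℕ := Encodable.encode (Sum.inl o : NT)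
/-- the loop -/
def nK (t : Tr) (i : ℕ) : ℕ := Encodable.encode (Sum.inr (Sum.inl (true, t, i)) : NT)
/-- the end of the loop -/
def nJ (t : Tr) (i : ℕ) : ℕ := Encodable.encode (Sum.inr (Sum.inl (false, t, i)) : NT)
/-- the start symbol -/
def nS : ℕ := Encodable.encode (Sum.inr (Sum.inr true) : NT)
/-- the counter symbol -/
def nC : ℕ := Encodable.encode (Sum.inr (Sum.inr false) : NT)

/-- stack parts -/
def oE : Op := Sum.inl ()
/-- bottom test -/
def oB : Op := Sum.inr (Sum.inl none)
/-- push -/
def oPush : Op := Sum.inr (Sum.inr (Sum.inl 0))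
/-- pop -/
def oPop : Op := Sum.inr (Sum.inr (Sum.inr 0))

/-- productions of a transition `(p, s, s0, r, r0, o)` -/
def trP (t : Tr) : List Prd :=
  (nP (some t.1), oE, Sum.inl (nK t 0) :: (List.replicate t.2.2.2.2.1 (Sum.inl nC) ++
    [Sum.inl (nP t.2.2.2.2.2)])) ::
  (nK t t.2.1, oE, Sum.inl (nK t 0) :: List.replicate t.2.2.2.1 (Sum.inl nC)) ::
  (nK t 0, oE, [Sum.inl (nJ t 0)]) ::
  (nJ t t.2.2.1, oB, []) ::
  ((List.range t.2.1).map (fun i => (nK t i, oPop, [Sum.inl (nK t (i + 1))])) ++
    (List.range t.2.2.1).map (fun i => (nJ t i, oPop, [Sum.inl (nJ t (i + 1))])))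

/-- the constant part -/
def base (T : List Tr) : List Prd :=
  (nC, oPush, [Sum.inr 0]) :: (nP none, oPop, [Sum.inl (nP none)]) :: (nP none, oB, []) ::
    T.flatMap trP

/-- the grammar -/
def gram (T : List Tr) (p0 x : ℕ) : GIG :=
  (nS, (nS, oE, List.replicate x (Sum.inl nC) ++ [Sum.inl (nP (some p0))]) :: base T)

/-! ### Soundness -/

/-- meaning of a nonterminal with continuation `V` -/
def W (T : List Tr) (p0 x0 : ℕ) : NT → (ℕ → Prop) → ℕ → Prop
  | Sum.inl o, _, x => HaltsT T o x
  | Sum.inr (Sum.inl (true, t, i)), V, x =>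
      ∃ k, x + i = t.2.1 * k + t.2.2.1 ∧ V (t.2.2.2.1 * k)
  | Sum.inr (Sum.inl (false, t, i)), V, x => x + i = t.2.2.1 ∧ V 0
  | Sum.inr (Sum.inr true), _, x => HaltsT T (some p0) (x + x0)
  | Sum.inr (Sum.inr false), V, x => V (x + 1)

/-- meaning of a sentential form -/
def Vl (T : List Tr) (p0 x0 : ℕ) : List Sym → ℕ → Prop
  | [], x => x = 0
  | Sum.inr _ :: β, x => Vl T p0 x0 β x
  | Sum.inl A :: β, x => match (Encodable.decode A : Option NT) with
    | some a => W T p0 x0 a (Vl T p0 x0 β) x
    | none => True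

section sound

variable (T : List Tr) (p0 x0 : ℕ)

theorem Vl_term (u : List ℕ) (β : List Sym) (x : ℕ) :
    Vl T p0 x0 (u.map Sum.inr ++ β) x = Vl T p0 x0 β x := by
  induction u with
  | nil => rfl
  | cons a u ih => exact ih

theorem Vl_enc (a : NT) (β : List Sym) (x : ℕ) :
    Vl T p0 x0 (Sum.inl (Encodable.encode a) :: β) x = W T p0 x0 a (Vl T p0 x0 β) x := by
  simp only [Vl, Encodable.encodek]

theorem Vl_C (k : ℕ) (β : List Sym) (x : ℕ) :
    Vl T p0 x0 (List.replicate k (Sum.inl nC) ++ β) x = Vl T p0 x0 β (x + k) := by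
  induction k generalizing x with
  | zero => rfl
  | succ k ih =>
    rw [List.replicate_succ, List.cons_append, nC, Vl_enc]
    show Vl T p0 x0 _ (x + 1) = _
    have := ih (x + 1)
    rw [nC] at this
    rw [this]
    congr 1
    omega

theorem sound_step {c c' : Cfg} (h : Step (gram T p0 x0) c c')
    (hV : Vl T p0 x0 c'.2 c'.1.length) : Vl T p0 x0 c.2 c.1.length := by
  obtain ⟨p, hp, u, γ, h1, h2, h3⟩ := h
  rw [h2, Vl_term] at hV
  rw [h1, Vl_term]
  simp only [gram, base, List.mem_cons, List.mem_flatMap] at hp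
  rcases hp with rfl | rfl | rfl | rfl | ⟨t, ht, hp⟩
  · -- start
    simp only [oE, OpRel] at h3
    rw [List.append_assoc, Vl_C, h3] at hV
    rw [nS, Vl_enc]
    rw [List.singleton_append, nP, Vl_enc] at hV
    exact hV
  · -- C
    simp only [oPush, OpRel] at h3
    rw [nC, Vl_enc]
    rw [h3] at hV
    exact hV
  · -- F pop
    rw [nP, Vl_enc]
    exact HaltsT.stop _
  · rw [nP, Vl_enc]
    exact HaltsT.stop _
  · simp only [trP, List.mem_cons, List.mem_append, List.mem_map, List.mem_range] at hp
    rcases hp with rfl | rfl | rfl | rfl | ⟨i, hi, rfl⟩ | ⟨i, hi, rfl⟩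
    · -- P
      simp only [oE, OpRel] at h3
      rw [h3] at hV
      rw [List.cons_append, nK, Vl_enc] at hV
      obtain ⟨k, hk1, hk2⟩ := hV
      rw [List.append_assoc, Vl_C, List.singleton_append, nP, Vl_enc] at hk2
      rw [nP, Vl_enc]
      rw [add_zero] at hk1
      rw [hk1]
      obtain ⟨p, s, s0, r, r0, o⟩ := t
      exact HaltsT.step p s s0 r r0 o ht k hk2
    · -- K s
      simp only [oE, OpRel] at h3
      rw [h3] at hV
      rw [List.cons_append, nK, Vl_enc] at hV
      obtain ⟨k, hk1, hk2⟩ := hV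
      rw [Vl_C] at hk2
      rw [nK, Vl_enc]
      refine ⟨k + 1, ?_, ?_⟩
      · rw [add_zero] at hk1
        rw [hk1]
        ring
      · have e : t.2.2.2.1 * (k + 1) = t.2.2.2.1 * k + t.2.2.2.1 := by ring
        rw [e]
        exact hk2
    · -- K 0
      simp only [oE, OpRel] at h3
      rw [h3] at hV
      rw [List.singleton_append, nJ, Vl_enc] at hV
      obtain ⟨hk1, hk2⟩ := hV
      rw [nK, Vl_enc]
      refine ⟨0, ?_, ?_⟩
      · rw [mul_zero, zero_add]
        exact hk1
      · rw [mul_zero]
        exact hk2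
    · -- J s0
      simp only [oB, OpRel] at h3
      rw [h3.2] at hV
      rw [nJ, Vl_enc, h3.1]
      exact ⟨by simp, hV⟩
    · -- K pop
      simp only [oPop, OpRel] at h3
      rw [List.singleton_append, nK, Vl_enc] at hV
      obtain ⟨k, hk1, hk2⟩ := hV
      rw [nK, Vl_enc, h3]
      refine ⟨k, ?_, hk2⟩
      rw [List.length_cons]
      rw [← hk1]
      ring
    · -- J pop
      simp only [oPop, OpRel] at h3
      rw [List.singleton_append, nJ, Vl_enc] at hV
      obtain ⟨hk1, hk2⟩ := hV
      rw [nJ, Vl_enc, h3]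
      refine ⟨?_, hk2⟩
      rw [List.length_cons]
      rw [← hk1]
      ring

theorem sound {w : List ℕ} (h : w ∈ lang (gram T p0 x0)) : HaltsT T (some p0) x0 := by
  have key : ∀ {c c' : Cfg}, ReflTransGen (Step (gram T p0 x0)) c c' →
      Vl T p0 x0 c'.2 c'.1.length → Vl T p0 x0 c.2 c.1.length := by
    intro c c' h
    induction h using ReflTransGen.head_induction_on with
    | refl => exact fun h => h
    | head h1 _ ih => exact fun hV => sound_step T p0 x0 h1 (ih hV)
  have h1 := key h (by
    have := Vl_term T p0 x0 w [] 0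
    rw [List.append_nil] at this
    show Vl T p0 x0 (w.map Sum.inr) 0
    rw [this]
    rfl)
  have h2 : Vl T p0 x0 [Sum.inl nS] 0 := h1
  rw [nS, Vl_enc] at h2
  have h3 : HaltsT T (some p0) (0 + x0) := h2
  rwa [zero_add] at h3

end sound

/-! ### Completeness -/

section complete

variable (T : List Tr) (p0 x0 : ℕ)

/-- the stack with `x` symbols -/
def stk (x : ℕ) : List ℕ := List.replicate x 0

/-- derivations which may produce terminals on the left -/
def R (x : ℕ) (β : List Sym) (x' : ℕ) (β' : List Sym) : Prop :=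
  ∃ k : ℕ, ∀ u : List ℕ, ReflTransGen (Step (gram T p0 x0)) (stk x, u.map Sum.inr ++ β)
    (stk x', (u ++ List.replicate k 0).map Sum.inr ++ β')

variable {T p0 x0}

theorem R.refl (x : ℕ) (β : List Sym) : R T p0 x0 x β x β :=
  ⟨0, fun u => by simpa using ReflTransGen.refl⟩

theorem R.trans {x y z : ℕ} {α β γ : List Sym} (h1 : R T p0 x0 x α y β)
    (h2 : R T p0 x0 y β z γ) : R T p0 x0 x α z γ := by
  obtain ⟨k, hk⟩ := h1
  obtain ⟨l, hl⟩ := h2
  refine ⟨k + l, fun u => ?_⟩
  have := (hk u).trans (hl (u ++ List.replicate k 0))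
  rw [List.append_assoc, List.replicate_append_replicate] at this
  exact this

theorem R.step {A : ℕ} {o : Op} {α β : List Sym} {x x' : ℕ}
    (hp : (A, o, α) ∈ (gram T p0 x0).2) (ho : OpRel o (stk x) (stk x')) :
    R T p0 x0 x (Sum.inl A :: β) x' (α ++ β) := by
  refine ⟨0, fun u => ReflTransGen.single ?_⟩
  exact ⟨(A, o, α), hp, u, β, rfl, by simp, ho⟩

theorem mem_base {p : Prd} (h : p ∈ base T) : p ∈ (gram T p0 x0).2 := List.mem_cons_of_mem _ h

theorem mem_tr {t : Tr} (ht : t ∈ T) {p : Prd} (h : p ∈ trP t) : p ∈ (gram T p0 x0).2 := by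
  refine mem_base ?_
  unfold base
  refine List.mem_cons_of_mem _ (List.mem_cons_of_mem _ (List.mem_cons_of_mem _ ?_))
  exact List.mem_flatMap.2 ⟨t, ht, h⟩

theorem R_C (k x : ℕ) (β : List Sym) :
    R T p0 x0 x (List.replicate k (Sum.inl nC) ++ β) (x + k) β := by
  induction k generalizing x with
  | zero => exact R.refl _ _
  | succ k ih =>
    rw [List.replicate_succ, List.cons_append]
    have h1 : R T p0 x0 x (Sum.inl nC :: (List.replicate k (Sum.inl nC) ++ β)) (x + 1)
        ([Sum.inr 0] ++ (List.replicate k (Sum.inl nC) ++ β)) :=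
      R.step (o := oPush) (mem_base (by simp [base])) (by
        simp only [oPush, OpRel, stk, List.replicate_succ])
    have h2 : R T p0 x0 (x + 1) ([Sum.inr 0] ++ (List.replicate k (Sum.inl nC) ++ β)) (x + 1)
        (List.replicate k (Sum.inl nC) ++ β) := by
      refine ⟨1, fun u => ?_⟩
      have e : u.map Sum.inr ++ ([Sum.inr 0] ++ (List.replicate k (Sum.inl nC) ++ β)) =
          (u ++ List.replicate 1 0).map Sum.inr ++ (List.replicate k (Sum.inl nC) ++ β) := by
        simp
      rw [e]
    have h3 := ih (x + 1)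
    have e : x + 1 + k = x + (k + 1) := by omega
    rw [e] at h3
    exact (h1.trans h2).trans h3

theorem R_Kpop {t : Tr} (ht : t ∈ T) (x : ℕ) (β : List Sym) (i : ℕ) (hi : i ≤ t.2.1) :
    R T p0 x0 (x + i) (Sum.inl (nK t 0) :: β) x (Sum.inl (nK t i) :: β) := by
  induction i with
  | zero => exact R.refl _ _
  | succ i ih =>
    -- pop one symbol more: use the general statement with `x + 1`
    have key : ∀ i, i ≤ t.2.1 → ∀ x, R T p0 x0 (x + i) (Sum.inl (nK t 0) :: β) x
        (Sum.inl (nK t i) :: β) := by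
      intro i
      induction i with
      | zero => intro _ x; exact R.refl _ _
      | succ i ih =>
        intro hi x
        have h1 := ih (by omega) (x + 1)
        have h2 : R T p0 x0 (x + 1) (Sum.inl (nK t i) :: β) x
            ([Sum.inl (nK t (i + 1))] ++ β) := by
          refine R.step (o := oPop) (mem_tr ht ?_) ?_
          · simp only [trP, List.mem_cons, List.mem_append, List.mem_map, List.mem_range]
            refine Or.inr (Or.inr (Or.inr (Or.inr (Or.inl ⟨i, by omega, rfl⟩))))
          · simp only [oPop, OpRel, stk, List.replicate_succ]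
        have e : x + 1 + i = x + (i + 1) := by omega
        rw [e] at h1
        exact h1.trans h2
    exact key (i + 1) hi x

theorem R_Jpop {t : Tr} (ht : t ∈ T) (β : List Sym) :
    ∀ i, i ≤ t.2.2.1 → ∀ x, R T p0 x0 (x + i) (Sum.inl (nJ t 0) :: β) x
        (Sum.inl (nJ t i) :: β) := by
  intro i
  induction i with
  | zero => intro _ x; exact R.refl _ _
  | succ i ih =>
    intro hi x
    have h1 := ih (by omega) (x + 1)
    have h2 : R T p0 x0 (x + 1) (Sum.inl (nJ t i) :: β) x
        ([Sum.inl (nJ t (i + 1))] ++ β) := by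
      refine R.step (o := oPop) (mem_tr ht ?_) ?_
      · simp only [trP, List.mem_cons, List.mem_append, List.mem_map, List.mem_range]
        refine Or.inr (Or.inr (Or.inr (Or.inr (Or.inr ⟨i, by omega, rfl⟩))))
      · simp only [oPop, OpRel, stk, List.replicate_succ]
    have e : x + 1 + i = x + (i + 1) := by omega
    rw [e] at h1
    exact h1.trans h2

theorem R_loop {t : Tr} (ht : t ∈ T) (k : ℕ) : ∀ (x : ℕ) (β : List Sym),
    R T p0 x0 (t.2.1 * k + x) (Sum.inl (nK t 0) :: β) x
      (Sum.inl (nK t 0) :: (List.replicate (t.2.2.2.1 * k) (Sum.inl nC) ++ β)) := by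
  induction k with
  | zero =>
    intro x β
    simpa using R.refl (T := T) (p0 := p0) (x0 := x0) x (Sum.inl (nK t 0) :: β)
  | succ k ih =>
    intro x β
    have h1 := R_Kpop (T := T) (p0 := p0) (x0 := x0) ht (t.2.1 * k + x) β t.2.1 le_rfl
    have e1 : t.2.1 * k + x + t.2.1 = t.2.1 * (k + 1) + x := by ring
    rw [e1] at h1
    have h2 : R T p0 x0 (t.2.1 * k + x) (Sum.inl (nK t t.2.1) :: β) (t.2.1 * k + x)
        ((Sum.inl (nK t 0) :: List.replicate t.2.2.2.1 (Sum.inl nC)) ++ β) := by
      refine R.step (o := oE) (mem_tr ht ?_) rfl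
      simp only [trP, List.mem_cons]
      exact Or.inr (Or.inl trivial)
    have h3 := ih x (List.replicate t.2.2.2.1 (Sum.inl nC) ++ β)
    rw [List.cons_append] at h2
    have e2 : List.replicate (t.2.2.2.1 * k) (Sum.inl nC : Sym) ++
        (List.replicate t.2.2.2.1 (Sum.inl nC) ++ β) =
        List.replicate (t.2.2.2.1 * (k + 1)) (Sum.inl nC) ++ β := by
      rw [← List.append_assoc, List.replicate_append_replicate]
      congr 2
    rw [e2] at h3
    exact (h1.trans h2).trans h3

theorem complete_aux {o : Option ℕ} {x : ℕ} (h : HaltsT T o x) :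
    R T p0 x0 x [Sum.inl (nP o)] 0 [] := by
  induction h with
  | stop x =>
    induction x with
    | zero =>
      exact R.step (o := oB) (α := []) (β := []) (mem_base (by simp [base])) ⟨rfl, rfl⟩
    | succ x ih =>
      have h1 : R T p0 x0 (x + 1) [Sum.inl (nP none)] x ([Sum.inl (nP none)] ++ []) :=
        R.step (o := oPop) (mem_base (by simp [base])) (by
          simp only [oPop, OpRel, stk, List.replicate_succ])
      exact h1.trans ih
  | step p s s0 r r0 o ht k _ ih =>
    have h1 : R T p0 x0 (s * k + s0) [Sum.inl (nP (some p))] (s * k + s0)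
        ((Sum.inl (nK (p, s, s0, r, r0, o) 0) :: (List.replicate r0 (Sum.inl nC) ++
          [Sum.inl (nP o)])) ++ []) := by
      refine R.step (o := oE) (mem_tr ht ?_) rfl
      simp only [trP, List.mem_cons]
      exact Or.inl trivial
    rw [List.append_nil] at h1
    have h2 := R_loop (T := T) (p0 := p0) (x0 := x0) ht k s0
      (List.replicate r0 (Sum.inl nC) ++ [Sum.inl (nP o)])
    simp only at h2
    have h3 : R T p0 x0 s0 (Sum.inl (nK (p, s, s0, r, r0, o) 0) ::
        (List.replicate (r * k) (Sum.inl nC) ++ (List.replicate r0 (Sum.inl nC) ++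
          [Sum.inl (nP o)]))) s0 ([Sum.inl (nJ (p, s, s0, r, r0, o) 0)] ++
        (List.replicate (r * k) (Sum.inl nC) ++ (List.replicate r0 (Sum.inl nC) ++
          [Sum.inl (nP o)]))) := by
      refine R.step (o := oE) (mem_tr ht ?_) rfl
      simp only [trP, List.mem_cons]
      exact Or.inr (Or.inr (Or.inl trivial))
    have h4 := R_Jpop (T := T) (p0 := p0) (x0 := x0) ht
      (List.replicate (r * k) (Sum.inl nC) ++ (List.replicate r0 (Sum.inl nC) ++
          [Sum.inl (nP o)])) s0 le_rfl 0
    rw [zero_add] at h4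
    have h5 : R T p0 x0 0 (Sum.inl (nJ (p, s, s0, r, r0, o) s0) ::
        (List.replicate (r * k) (Sum.inl nC) ++ (List.replicate r0 (Sum.inl nC) ++
          [Sum.inl (nP o)]))) 0 ([] ++
        (List.replicate (r * k) (Sum.inl nC) ++ (List.replicate r0 (Sum.inl nC) ++
          [Sum.inl (nP o)]))) := by
      refine R.step (o := oB) (mem_tr ht ?_) ⟨rfl, rfl⟩
      simp only [trP, List.mem_cons]
      exact Or.inr (Or.inr (Or.inr (Or.inl trivial)))
    have h6 := R_C (T := T) (p0 := p0) (x0 := x0) (r * k) 0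
      (List.replicate r0 (Sum.inl nC) ++ [Sum.inl (nP o)])
    have h7 := R_C (T := T) (p0 := p0) (x0 := x0) r0 (0 + r * k) [Sum.inl (nP o)]
    have e : 0 + r * k + r0 = r * k + r0 := by ring
    rw [e] at h7
    exact (((((h1.trans h2).trans h3).trans h4).trans h5).trans h6).trans (h7.trans ih)

theorem complete (h : HaltsT T (some p0) x0) : ∃ w, w ∈ lang (gram T p0 x0) := by
  have h1 : R T p0 x0 0 [Sum.inl nS] 0
      ((List.replicate x0 (Sum.inl nC) ++ [Sum.inl (nP (some p0))]) ++ []) :=
    R.step (o := oE) (by simp [gram]) rfl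
  rw [List.append_nil] at h1
  have h2 := R_C (T := T) (p0 := p0) (x0 := x0) x0 0 [Sum.inl (nP (some p0))]
  rw [zero_add] at h2
  obtain ⟨k, hk⟩ := (h1.trans h2).trans (complete_aux h)
  refine ⟨List.replicate k 0, ?_⟩
  have := hk []
  simpa [lang, gram, stk] using this

end complete

theorem lang_empty_iff (T : List Tr) (p0 x : ℕ) :
    lang (gram T p0 x) = ∅ ↔ ¬ HaltsT T (some p0) x := by
  constructor
  · intro h hh
    obtain ⟨w, hw⟩ := complete hh
    rw [h] at hw
    exact hw
  · intro h
    rw [Set.eq_empty_iff_forall_notMem]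
    exact fun w hw => h (sound T p0 x hw)

/-! ### The decision problem -/

theorem wf_gram (T : List Tr) (p0 x : ℕ) : WF (gram T p0 x) := by
  intro p hp y hy
  simp only [gram, base, List.mem_cons, List.mem_flatMap] at hp
  rcases hp with rfl | rfl | rfl | rfl | ⟨t, _, hp⟩
  · simp [oE] at hy
  · exact ⟨0, [], rfl⟩
  · simp [oPop] at hy
  · simp [oB] at hy
  · simp only [trP, List.mem_cons, List.mem_append, List.mem_map, List.mem_range] at hp
    rcases hp with rfl | rfl | rfl | rfl | ⟨i, hi, rfl⟩ | ⟨i, hi, rfl⟩ <;>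
      simp [oE, oB, oPop] at hy

theorem unary_gram (T : List Tr) (p0 x : ℕ) : Unary (gram T p0 x) := by
  intro p hp
  simp only [gram, base, List.mem_cons, List.mem_flatMap] at hp
  rcases hp with rfl | rfl | rfl | rfl | ⟨t, _, hp⟩
  · constructor
    · intro y hy
      simp at hy
    · intro y hy
      simp [oE] at hy
  · constructor
    · intro y hy
      simpa using hy
    · intro y hy
      simp [oPush] at hy
      omega
  · constructor
    · intro y hy
      simp at hy
    · intro y hy
      simp [oPop] at hy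
      omega
  · constructor
    · intro y hy
      simp at hy
    · intro y hy
      simp [oB] at hy
  · simp only [trP, List.mem_cons, List.mem_append, List.mem_map, List.mem_range] at hp
    rcases hp with rfl | rfl | rfl | rfl | ⟨i, hi, rfl⟩ | ⟨i, hi, rfl⟩ <;>
    · constructor
      · intro y hy
        simp at hy
      · intro y hy
        simp [oE, oB, oPop] at hy
        try omega

theorem gram_computable (T : List Tr) (p0 : ℕ) (N : ℕ → ℕ) (hN : Computable N) :
    Computable (fun n => gram T p0 (N n)) := by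
  have h1 : Primrec (fun x : ℕ => gram T p0 x) := by
    unfold gram
    have h2 : Primrec (fun x : ℕ => (List.replicate x (Sum.inl nC) : List Sym)) := by
      have h3 : Primrec (fun x : ℕ => (List.range x).map (fun _ => (Sum.inl nC : Sym))) :=
        Primrec.list_map Primrec.list_range (Primrec.const _)
      refine h3.of_eq fun x => ?_
      simp
    have h4 : Primrec (fun x : ℕ =>
        (List.replicate x (Sum.inl nC) ++ [Sum.inl (nP (some p0))] : List Sym)) :=
      Primrec.list_append.comp h2 (Primrec.const _)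
    have h6 : Primrec (fun x : ℕ =>
        ((nS, oE, List.replicate x (Sum.inl nC) ++ [Sum.inl (nP (some p0))]) : Prd)) :=
      Primrec.pair (Primrec.const nS) (Primrec.pair (Primrec.const oE) h4)
    exact Primrec.pair (Primrec.const nS) (Primrec.list_cons.comp h6 (Primrec.const (base T)))
  exact h1.to_comp.comp hN

/-- Main theorem.  No algorithm decides emptiness for global index grammars, not even for grammars
with one index symbol and one terminal symbol. -/
theorem result : ¬ ∃ f : GIG → Bool, Computable f ∧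
    ∀ G : GIG, WF G → Unary G → (f G = true ↔ lang G = ∅) := by
  rintro ⟨f, hf, h⟩
  obtain ⟨T, p0, N, hN, hu⟩ := exists_tr
  apply hu
  have h1 : Computable (fun n => !(f (gram T p0 (N n)))) :=
    (Primrec.not.to_comp).comp (hf.comp (gram_computable T p0 N hN))
  refine ComputablePred.computable_iff.2 ⟨_, h1, ?_⟩
  funext n
  have h2 := h _ (wf_gram T p0 (N n)) (unary_gram T p0 (N n))
  rw [lang_empty_iff] at h2
  by_cases hh : HaltsT T (some p0) (N n)
  · have : f (gram T p0 (N n)) ≠ true := fun e => (h2.1 e) hh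
    simp [hh, this]
  · simp [hh, h2.2 hh]

end Pool.Agent.Results.MP_c0e261_lc.EmptinessUndecidable
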